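import Pool.Agent.Q183.AM.Cartan7

/-!
Heights and radicals of points with rational integral coordinates, one of which is `1`.
-/

set_option autoImplicit false

namespace Pool.Agent.Q183.GS

open Pool.Agent.Q183.AM Pool.Agent.Q183.AR
open NumberField IsDedekindDomain

variable {K : Type} [Field K] [NumberField K] {N : ℕ}

/-- the absolute logarithmic height -/
noncomputable def ht (P : Fin (N + 1) → K) : ℝ := Height.logHeight P / Module.finrank ℚ K

/-- the primes at which the valuations of the coordinates are not all equal -/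
def bad (P : Fin (N + 1) → K) : Set (HeightOneSpectrum (𝓞 K)) :=
  {v | ∃ i i', v.valuation K (P i) ≠ v.valuation K (P i')}

/-- the radical -/
noncomputable def rad (P : Fin (N + 1) → K) : ℝ :=
  (∑ᶠ v ∈ bad P, Real.log (Ideal.absNorm v.asIdeal)) / Module.finrank ℚ K

theorem finrank_pos' : (0 : ℝ) < Module.finrank ℚ K := by
  exact_mod_cast Module.finrank_pos

theorem le_ht (z : Fin (N + 1) → ℤ) (i0 i1 : Fin (N + 1)) (h1 : z i1 = 1) {L : ℝ}
    (hL : L ≤ Real.log |(z i0 : ℝ)|) (h0 : z i0 ≠ 0) : L ≤ ht (fun i => ((z i : ℤ) : K)) := by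
  unfold ht
  rw [le_div_iff₀ finrank_pos']
  have hz : (fun i => ((z i : ℤ) : 𝓞 K)) ≠ 0 := by
    intro h
    have := congrFun h i1
    simp [h1] at this
  have e1 : (fun i => ((z i : ℤ) : K)) = fun i => ((((z i : ℤ) : 𝓞 K)) : K) := by
    funext i
    simp
  rw [e1, logHeight_sum (fun i => ((z i : ℤ) : 𝓞 K)) hz]
  have e2 : ∀ v : HeightOneSpectrum (𝓞 K),
      Real.log (⨆ k, FinitePlace.mk v ((((z k : ℤ) : 𝓞 K)) : K)) = 0 := by
    intro v
    have : (⨆ k, FinitePlace.mk v ((((z k : ℤ) : 𝓞 K)) : K)) = 1 := by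
      refine le_antisymm (ciSup_le fun k => norm_le_one v _) ?_
      have h2 : FinitePlace.mk v ((((z i1 : ℤ) : 𝓞 K)) : K) = 1 := by
        rw [h1]
        simp
      rw [← h2]
      exact le_ciSup (f := fun k => FinitePlace.mk v ((((z k : ℤ) : 𝓞 K)) : K))
        (Set.finite_range _).bddAbove i1
    rw [this, Real.log_one]
  have e3 : ∑ᶠ v : HeightOneSpectrum (𝓞 K),
      Real.log (⨆ k, FinitePlace.mk v ((((z k : ℤ) : 𝓞 K)) : K)) = 0 := by
    rw [finsum_congr e2]
    exact finsum_zero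
  rw [e3, add_zero]
  have hmult : ∑ w : InfinitePlace K, (w.mult : ℝ) = Module.finrank ℚ K := by
    exact_mod_cast InfinitePlace.sum_mult_eq (K := K)
  rw [← hmult, Finset.mul_sum]
  refine Finset.sum_le_sum fun w _ => ?_
  rw [mul_comm]
  refine mul_le_mul_of_nonneg_left ?_ (Nat.cast_nonneg _)
  refine hL.trans (Real.log_le_log (abs_pos.2 (by exact_mod_cast h0)) ?_)
  have h3 : w ((((z i0 : ℤ) : 𝓞 K)) : K) = |(z i0 : ℝ)| := by
    have h4 : ((((z i0 : ℤ) : 𝓞 K)) : K) = ((z i0 : ℤ) : K) := by simp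
    rw [h4, ← InfinitePlace.norm_embedding_eq w, map_intCast, Complex.norm_intCast]
  rw [← h3]
  exact le_ciSup (f := fun k => w ((((z k : ℤ) : 𝓞 K)) : K)) (Set.finite_range _).bddAbove i0

theorem rad_le (z : Fin (N + 1) → ℤ) (M : ℕ) (hM : M ≠ 0)
    (h : ∀ v : HeightOneSpectrum (𝓞 K), ∀ i, ((z i : ℤ) : 𝓞 K) ∈ v.asIdeal →
      ((M : ℕ) : 𝓞 K) ∈ v.asIdeal) :
    rad (fun i => ((z i : ℤ) : K)) ≤ Real.log M := by
  classical
  unfold rad
  rw [div_le_iff₀ finrank_pos']
  have hM0 : ((M : ℕ) : 𝓞 K) ≠ 0 := by exact_mod_cast hM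
  have hsub : bad (fun i => ((z i : ℤ) : K)) ⊆ {v | ((M : ℕ) : 𝓞 K) ∈ v.asIdeal} := by
    rintro v ⟨i, i', hii⟩
    by_contra hcon
    have h2 : ∀ k, v.valuation K ((z k : ℤ) : K) = 1 := by
      intro k
      have h3 : ((z k : ℤ) : 𝓞 K) ∉ v.asIdeal := fun h4 => hcon (h v k h4)
      have h5 : ((z k : ℤ) : K) = algebraMap (𝓞 K) K ((z k : ℤ) : 𝓞 K) := by simp
      rw [h5]
      exact (HeightOneSpectrum.valuation_eq_one_iff_notMem v).2 h3
    exact hii ((h2 i).trans (h2 i').symm)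
  have hfin := finite_dvd hM0
  have hb : (bad (fun i => ((z i : ℤ) : K))).Finite := hfin.subset hsub
  rw [finsum_mem_eq_finite_toFinset_sum _ hb]
  have hspan : Ideal.span {((M : ℕ) : 𝓞 K)} ≠ ⊥ := fun h0 => hM0 (Ideal.span_singleton_eq_bot.1 h0)
  calc ∑ v ∈ hb.toFinset, Real.log (Ideal.absNorm v.asIdeal)
      ≤ ∑ v ∈ hb.toFinset, (cv v (Ideal.span {((M : ℕ) : 𝓞 K)}) : ℝ) *
        Real.log (Ideal.absNorm v.asIdeal) := by
        refine Finset.sum_le_sum fun v hv => ?_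
        have h3 : 0 < cv v (Ideal.span {((M : ℕ) : 𝓞 K)}) :=
          (cv_pos_iff v hspan).2 (Ideal.dvd_span_singleton.2 (hsub (hb.mem_toFinset.1 hv)))
        exact le_mul_of_one_le_left (log_Nv_pos v).le (by exact_mod_cast h3)
    _ ≤ ∑ v ∈ hfin.toFinset, (cv v (Ideal.span {((M : ℕ) : 𝓞 K)}) : ℝ) *
        Real.log (Ideal.absNorm v.asIdeal) := by
        refine Finset.sum_le_sum_of_subset_of_nonneg ?_ fun v _ _ =>
          mul_nonneg (Nat.cast_nonneg _) (log_Nv_pos v).le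
        intro v hv
        exact hfin.mem_toFinset.2 (hsub (hb.mem_toFinset.1 hv))
    _ = Real.log (Ideal.absNorm (Ideal.span {((M : ℕ) : 𝓞 K)})) := by
        rw [log_cv hspan hfin.toFinset]
        intro v hv
        exact hfin.mem_toFinset.2 (Ideal.dvd_span_singleton.1 hv)
    _ = Real.log M * Module.finrank ℚ K := by
        rw [← norm_span]
        have h6 : ((((M : ℕ) : 𝓞 K)) : K) = algebraMap ℚ K (M : ℚ) := by simp
        rw [h6, Algebra.norm_algebraMap]
        push_cast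
        rw [abs_pow, Real.log_pow, abs_of_nonneg (Nat.cast_nonneg _), mul_comm]

end Pool.Agent.Q183.GS
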