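import Mathlib

/-!
A form which vanishes on the cones over several of the curves `(t ^ d : -(t + 1) ^ d : 1)` has large
degree.
-/

set_option autoImplicit false

namespace Pool.Agent.Q183.GS

open Polynomial

theorem prod_near (t t' : ℂ) (ρ : ℝ) (h : ‖t‖ ≤ ρ) (h' : ‖t'‖ ≤ ρ) (hρ : ρ ≤ 1) (k j : ℕ) :
    ‖(1 + t) ^ k * (1 + t') ^ j - 1‖ ≤ 3 ^ (k + j) * ρ := by
  have hρ0 : 0 ≤ ρ := (norm_nonneg t).trans h
  have step : ∀ (A u : ℂ) (n : ℕ), ‖u‖ ≤ ρ → ‖A - 1‖ ≤ 3 ^ n * ρ →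
      ‖A * (1 + u) - 1‖ ≤ 3 ^ (n + 1) * ρ := by
    intro A u n hu hA
    have e : A * (1 + u) - 1 = (1 + u) * (A - 1) + u := by ring
    have h1 : ‖1 + u‖ ≤ 2 := by
      refine (norm_add_le _ _).trans ?_
      rw [norm_one]
      linarith
    rw [e]
    refine (norm_add_le _ _).trans ?_
    rw [norm_mul]
    have h2 : ‖1 + u‖ * ‖A - 1‖ ≤ 2 * (3 ^ n * ρ) :=
      mul_le_mul h1 hA (norm_nonneg _) (by norm_num)
    have h3 : ρ ≤ 3 ^ n * ρ := le_mul_of_one_le_left hρ0 (one_le_pow₀ (by norm_num))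
    rw [pow_succ]
    linarith
  induction j with
  | zero =>
    rw [pow_zero, mul_one, add_zero]
    induction k with
    | zero => simpa using hρ0
    | succ k ih => 
      rw [pow_succ]
      exact step _ _ _ h ih
  | succ j ih =>
    rw [pow_succ, ← mul_assoc, ← add_assoc]
    exact step _ _ _ h' ih

theorem pow_inj (d : ℕ) (hd : 1 ≤ d) (t t' : ℂ) (ρ : ℝ) (h : ‖t‖ ≤ ρ) (h' : ‖t'‖ ≤ ρ)
    (hρ : 3 ^ d * (2 * ρ) < 1) (heq : (1 + t) ^ d = (1 + t') ^ d) : t = t' := by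
  have hρ0 : 0 ≤ ρ := (norm_nonneg t).trans h
  have h3 : (1 : ℝ) ≤ 3 ^ d := one_le_pow₀ (by norm_num)
  have hρ1 : ρ ≤ 1 := by nlinarith
  have h1 := Commute.geom_sum₂_mul (Commute.all (1 + t) (1 + t')) d
  rw [heq, sub_self] at h1
  rcases mul_eq_zero.1 h1 with h2 | h2
  · exfalso
    have h4 : ‖(∑ i ∈ Finset.range d, (1 + t) ^ i * (1 + t') ^ (d - 1 - i)) - (d : ℂ)‖ ≤
        d * (3 ^ d * ρ) := by
      have e : (∑ i ∈ Finset.range d, (1 + t) ^ i * (1 + t') ^ (d - 1 - i)) - (d : ℂ) =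
          ∑ i ∈ Finset.range d, ((1 + t) ^ i * (1 + t') ^ (d - 1 - i) - 1) := by
        rw [Finset.sum_sub_distrib]
        simp
      rw [e]
      refine (norm_sum_le _ _).trans ?_
      refine (Finset.sum_le_card_nsmul _ _ (3 ^ d * ρ) fun i hi => ?_).trans ?_
      · refine (prod_near t t' ρ h h' hρ1 i (d - 1 - i)).trans ?_
        refine mul_le_mul_of_nonneg_right ?_ hρ0
        refine pow_le_pow_right₀ (by norm_num) ?_
        have := Finset.mem_range.1 hi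
        omega
      · rw [Finset.card_range, nsmul_eq_mul]
    rw [h2, zero_sub, norm_neg] at h4
    have h5 : ‖(d : ℂ)‖ = d := by simp
    rw [h5] at h4
    have hd' : (1 : ℝ) ≤ d := by exact_mod_cast hd
    nlinarith
  · linear_combination h2

theorem near_lin (d : ℕ) (t : ℂ) (h : ‖t‖ ≤ 1) : ‖(1 + t) ^ d - 1 - d * t‖ ≤ 3 ^ d * ‖t‖ ^ 2 := by
  induction d with
  | zero => 
    simp
  | succ d ih =>
    have e : (1 + t) ^ (d + 1) - 1 - ((d + 1 : ℕ) : ℂ) * t =
        (1 + t) * ((1 + t) ^ d - 1 - d * t) + d * t ^ 2 := by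
      push_cast
      ring
    rw [e]
    refine (norm_add_le _ _).trans ?_
    rw [norm_mul, norm_mul, norm_pow]
    have h1 : ‖1 + t‖ ≤ 2 := by
      refine (norm_add_le _ _).trans ?_
      rw [norm_one]
      linarith
    have h2 : ‖1 + t‖ * ‖(1 + t) ^ d - 1 - d * t‖ ≤ 2 * (3 ^ d * ‖t‖ ^ 2) :=
      mul_le_mul h1 ih (norm_nonneg _) (by norm_num)
    have h3 : ‖(d : ℂ)‖ * ‖t‖ ^ 2 ≤ 3 ^ d * ‖t‖ ^ 2 := by
      refine mul_le_mul_of_nonneg_right ?_ (by positivity)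
      have h5 : ‖(d : ℂ)‖ = d := by simp
      rw [h5]
      exact_mod_cast (Nat.lt_pow_self (by norm_num : 1 < 3) (n := d)).le
    have h6 : (3 : ℝ) ^ (d + 1) = 3 ^ d * 3 := pow_succ _ _
    rw [h6]
    linarith

/-- the values `(1 + t) ^ d` with `t ^ d = τ` are different for small `τ` -/
theorem distinct (D : Finset ℕ) (hD : ∀ d ∈ D, 2 ≤ d) : ∀ᶠ τ : ℝ in nhdsWithin 0 (Set.Ioi 0),
    0 < τ ∧ (∀ d ∈ D, ∀ t : ℂ, t ^ d = τ → ‖t‖ < 1 / 2) ∧
    ∀ d ∈ D, ∀ d' ∈ D, ∀ t t' : ℂ, t ^ d = τ → t' ^ d' = τ → (1 + t) ^ d = (1 + t') ^ d' →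
      d = d' ∧ t = t' := by
  have tend : ∀ y : ℝ, 0 < y → Filter.Tendsto (fun τ : ℝ => τ ^ y) (nhdsWithin 0 (Set.Ioi 0))
      (nhds 0) := by
    intro y hy
    have h1 : ContinuousAt (fun τ : ℝ => τ ^ y) 0 := Real.continuousAt_rpow_const _ _ (Or.inr hy.le)
    have h2 := h1.tendsto
    rw [Real.zero_rpow hy.ne'] at h2
    exact h2.mono_left nhdsWithin_le_nhds
  have E1 : ∀ d ∈ D, ∀ᶠ τ : ℝ in nhdsWithin 0 (Set.Ioi 0), 3 ^ d * (2 * τ ^ (1 / (d : ℝ))) < 1 := by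
    intro d hd
    have hd0 : (0 : ℝ) < d := by exact_mod_cast (lt_of_lt_of_le two_pos (hD d hd))
    have h1 := ((tend (1 / (d : ℝ)) (by positivity)).const_mul 2).const_mul ((3 : ℝ) ^ d)
    rw [mul_zero, mul_zero] at h1
    exact h1.eventually (gt_mem_nhds one_pos)
  have E2 : ∀ d ∈ D, ∀ d' ∈ D, d < d' → ∀ᶠ τ : ℝ in nhdsWithin 0 (Set.Ioi 0),
      (d + 1) * τ ^ (1 / (d : ℝ)) < τ ^ (1 / (d' : ℝ)) := by
    intro d hd d' hd' hlt
    have hd0 : (0 : ℝ) < d := by exact_mod_cast (lt_of_lt_of_le two_pos (hD d hd))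
    have hd0' : (0 : ℝ) < d' := by exact_mod_cast (lt_of_lt_of_le two_pos (hD d' hd'))
    have hltR : (d : ℝ) < d' := by exact_mod_cast hlt
    have hy : 0 < 1 / (d : ℝ) - 1 / (d' : ℝ) := sub_pos.2 (one_div_lt_one_div_of_lt hd0 hltR)
    have h1 := (tend _ hy).const_mul ((d : ℝ) + 1)
    rw [mul_zero] at h1
    filter_upwards [h1.eventually (gt_mem_nhds one_pos), self_mem_nhdsWithin] with τ h2 h3
    have hτ : (0 : ℝ) < τ := h3
    have h4 : τ ^ (1 / (d : ℝ)) = τ ^ (1 / (d : ℝ) - 1 / (d' : ℝ)) * τ ^ (1 / (d' : ℝ)) := by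
      rw [← Real.rpow_add hτ]
      congr 1
      ring
    have h5 : 0 < τ ^ (1 / (d' : ℝ)) := Real.rpow_pos_of_pos hτ _
    rw [h4, ← mul_assoc]
    calc _ < 1 * τ ^ (1 / (d' : ℝ)) := mul_lt_mul_of_pos_right h2 h5
      _ = _ := one_mul _
  have E1' : ∀ᶠ τ : ℝ in nhdsWithin 0 (Set.Ioi 0), ∀ d ∈ D, 3 ^ d * (2 * τ ^ (1 / (d : ℝ))) < 1 :=
    (Filter.eventually_all_finset D).2 E1
  have E2' : ∀ᶠ τ : ℝ in nhdsWithin 0 (Set.Ioi 0), ∀ d ∈ D, ∀ d' ∈ D, d < d' →
      (d + 1) * τ ^ (1 / (d : ℝ)) < τ ^ (1 / (d' : ℝ)) := by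
    refine (Filter.eventually_all_finset D).2 fun d hd => (Filter.eventually_all_finset D).2
      fun d' hd' => ?_
    by_cases hlt : d < d'
    · filter_upwards [E2 d hd d' hd' hlt] with τ h _
      exact h
    · exact Filter.Eventually.of_forall fun τ h => absurd h hlt
  filter_upwards [E1', E2', self_mem_nhdsWithin] with τ h1 h2 h3
  have hτ : (0 : ℝ) < τ := h3
  -- the size of the roots
  have hsz : ∀ d ∈ D, ∀ t : ℂ, t ^ d = τ → ‖t‖ = τ ^ (1 / (d : ℝ)) := by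
    intro d hd t ht
    have hd0 : d ≠ 0 := by
      have := hD d hd
      omega
    have h4 : ‖t‖ ^ d = τ := by
      rw [← norm_pow, ht, Complex.norm_real, Real.norm_of_nonneg hτ.le]
    rw [← h4, one_div, Real.pow_rpow_inv_natCast (norm_nonneg t) hd0]
  have hsmall : ∀ d ∈ D, ∀ t : ℂ, t ^ d = τ → 3 ^ d * (2 * ‖t‖) < 1 := by
    intro d hd t ht
    rw [hsz d hd t ht]
    exact h1 d hd
  have h3d : ∀ d ∈ D, (9 : ℝ) ≤ 3 ^ d := by
    intro d hd
    calc (9 : ℝ) = 3 ^ 2 := by norm_num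
      _ ≤ 3 ^ d := pow_le_pow_right₀ (by norm_num) (hD d hd)
  have hhalf : ∀ d ∈ D, ∀ t : ℂ, t ^ d = τ → ‖t‖ < 1 / 2 := by
    intro d hd t ht
    have h5 := hsmall d hd t ht
    have h6 := h3d d hd
    have h7 := norm_nonneg t
    nlinarith
  refine ⟨hτ, hhalf, ?_⟩
  -- the size of the differences
  have hw : ∀ d ∈ D, ∀ t : ℂ, t ^ d = τ → ‖t‖ ≤ ‖(1 + t) ^ d - 1‖ ∧
      ‖(1 + t) ^ d - 1‖ ≤ (d + 1) * ‖t‖ := by
    intro d hd t ht
    have h5 := near_lin d t (by linarith [hhalf d hd t ht])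
    have h6 : 3 ^ d * ‖t‖ ^ 2 ≤ ‖t‖ := by
      have h7 := hsmall d hd t ht
      have h8 := norm_nonneg t
      nlinarith
    have hdR : (2 : ℝ) ≤ d := by exact_mod_cast hD d hd
    have h9 : ‖(d : ℂ) * t‖ = d * ‖t‖ := by
      rw [norm_mul]
      simp
    have h10 : ‖(d : ℂ) * t‖ ≤ ‖(1 + t) ^ d - 1‖ + ‖(1 + t) ^ d - 1 - d * t‖ := by
      have e : (d : ℂ) * t = ((1 + t) ^ d - 1) - ((1 + t) ^ d - 1 - d * t) := by ring
      conv_lhs => rw [e]
      exact norm_sub_le _ _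
    have h11 : ‖(1 + t) ^ d - 1‖ ≤ ‖(d : ℂ) * t‖ + ‖(1 + t) ^ d - 1 - d * t‖ := by
      have e : (1 + t) ^ d - 1 = (d : ℂ) * t + ((1 + t) ^ d - 1 - d * t) := by ring
      conv_lhs => rw [e]
      exact norm_add_le _ _
    have h12 := norm_nonneg t
    rw [h9] at h10 h11
    constructor
    · nlinarith
    · nlinarith
  have key : ∀ d ∈ D, ∀ d' ∈ D, ∀ t t' : ℂ, t ^ d = τ → t' ^ d' = τ → d < d' →
      (1 + t) ^ d ≠ (1 + t') ^ d' := by
    intro d hd d' hd' t t' ht ht' hlt heq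
    obtain ⟨-, h4⟩ := hw d hd t ht
    obtain ⟨h5, -⟩ := hw d' hd' t' ht'
    rw [heq] at h4
    have h6 := h2 d hd d' hd' hlt
    rw [← hsz d hd t ht, ← hsz d' hd' t' ht'] at h6
    linarith
  intro d hd d' hd' t t' ht ht' heq
  rcases lt_trichotomy d d' with hlt | rfl | hlt
  · exact absurd heq (key d hd d' hd' t t' ht ht' hlt)
  · refine ⟨rfl, ?_⟩
    refine pow_inj d (by have := hD d hd; omega) t t' ‖t‖ (le_refl _) ?_ (hsmall d hd t ht) heq
    rw [hsz d hd t ht, hsz d hd t' ht']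
  · exact absurd heq.symm (key d' hd' d hd t' t ht' ht hlt)

/-- evaluation of a form at a multiple of a point -/
theorem eval_smul_of {σ R : Type} [CommRing R] {F : MvPolynomial σ R} {n : ℕ}
    (hF : F.IsHomogeneous n) (a : R) (y : σ → R) :
    MvPolynomial.eval (fun i => a * y i) F = a ^ n * MvPolynomial.eval y F := by
  rw [MvPolynomial.eval_eq, MvPolynomial.eval_eq, Finset.mul_sum]
  refine Finset.sum_congr rfl fun s hs => ?_
  have h1 : ∑ i ∈ s.support, s i = n := by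
    have := hF (MvPolynomial.mem_support_iff.1 hs)
    rw [Finsupp.weight_apply] at this
    simpa [Finsupp.sum] using this
  simp only [mul_pow]
  rw [Finset.prod_mul_distrib, Finset.prod_pow_eq_pow_sum, h1]
  ring

open MvPolynomial in
/-- **A form which vanishes on the cones has large degree.** -/
theorem deg_bound {r : ℕ} (G : MvPolynomial (Fin (3 + r)) ℂ) (δ : ℕ) (hG : G.IsHomogeneous δ)
    (hne : G ≠ 0) (D : Finset ℕ) (hD : ∀ d ∈ D, 2 ≤ d)
    (hvan : ∀ d ∈ D, ∀ t : ℂ, t ≠ 0 → ‖t‖ < 1 / 2 → ∀ c : Fin r → ℂ,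
      eval (Fin.append ![t ^ d, -(t + 1) ^ d, 1] c) G = 0) : ∑ d ∈ D, d ≤ δ := by
  classical
  -- a point off the zeros with third coordinate 1
  obtain ⟨y, hy⟩ : ∃ y : Fin (3 + r) → ℂ, eval y (G * MvPolynomial.X (Fin.castAdd r 2)) ≠ 0 := by
    by_contra hcon
    push Not at hcon
    have h0 : G * MvPolynomial.X (Fin.castAdd r 2) = 0 := MvPolynomial.funext fun y => by
      rw [hcon y, map_zero]
    rcases mul_eq_zero.1 h0 with h | h
    · exact hne h
    · exact MvPolynomial.X_ne_zero _ h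
  rw [map_mul, MvPolynomial.eval_X] at hy
  obtain ⟨hyG, hy2⟩ := mul_ne_zero_iff.1 hy
  set u := y (Fin.castAdd r 2) with hu
  set c : Fin r → ℂ := fun j => u⁻¹ * y (Fin.natAdd 3 j) with hc
  set a := u⁻¹ * y (Fin.castAdd r 0) with ha
  set b := u⁻¹ * y (Fin.castAdd r 1) with hb
  have hpt : eval (Fin.append ![a, b, 1] c) G ≠ 0 := by
    have e : Fin.append ![a, b, 1] c = fun i => u⁻¹ * y i := by
      funext i
      refine Fin.addCases (fun j => ?_) (fun j => ?_) i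
      · rw [Fin.append_left]
        fin_cases j
        · rfl
        · rfl
        · show (1 : ℂ) = u⁻¹ * u
          rw [inv_mul_cancel₀ hy2]
      · rw [Fin.append_right]
    rw [e, eval_smul_of hG]
    exact mul_ne_zero (pow_ne_zero _ (inv_ne_zero hy2)) hyG
  -- the polynomial in the first coordinate
  set f0 : Fin (3 + r) → ℂ[X] := Fin.append ![Polynomial.X, Polynomial.C b, 1]
    (fun j => Polynomial.C (c j)) with hf0
  set q : ℂ[X] := aeval f0 G with hq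
  have hq' : ∀ τ, q.eval τ = eval (Fin.append ![τ, b, 1] c) G := by
    intro τ
    have e1 : q.eval τ = (Polynomial.aeval τ) (aeval f0 G) := by
      rw [Polynomial.coe_aeval_eq_eval]
    rw [e1, ← AlgHom.comp_apply, MvPolynomial.comp_aeval, ← MvPolynomial.coe_aeval_eq_eval]
    show (MvPolynomial.aeval _) G = (MvPolynomial.aeval _) G
    congr 2
    funext i
    refine Fin.addCases (fun j => ?_) (fun j => ?_) i
    · simp only [hf0, Fin.append_left]
      fin_cases j <;> simp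
    · simp only [hf0, Fin.append_right]
      simp
  have hq0 : q ≠ 0 := by
    intro h0
    apply hpt
    rw [← hq', h0, Polynomial.eval_zero]
  have hroots : ∀ᶠ τ : ℝ in nhdsWithin 0 (Set.Ioi 0), q.eval (τ : ℂ) ≠ 0 := by
    have h1 : ∀ x ∈ q.roots.toFinset, ∀ᶠ τ : ℝ in nhdsWithin 0 (Set.Ioi 0), (τ : ℂ) ≠ x := by
      intro x _
      by_cases hx : x = 0
      · filter_upwards [self_mem_nhdsWithin] with τ hτ
        rw [hx]
        exact_mod_cast (ne_of_gt (show (0 : ℝ) < τ from hτ))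
      · have h2 : (0 : ℝ) < ‖x‖ := norm_pos_iff.2 hx
        have h3 : ∀ᶠ τ : ℝ in nhdsWithin 0 (Set.Ioi 0), τ < ‖x‖ :=
          nhdsWithin_le_nhds (gt_mem_nhds h2)
        filter_upwards [h3, self_mem_nhdsWithin] with τ h4 h5 h6
        rw [← h6, Complex.norm_real, Real.norm_of_nonneg (le_of_lt h5)] at h4
        exact lt_irrefl _ h4
    have h2 := (Filter.eventually_all_finset q.roots.toFinset).2 h1
    filter_upwards [h2] with τ h3 h4
    exact h3 τ (Multiset.mem_toFinset.2 ((Polynomial.mem_roots hq0).2 h4)) rfl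
  obtain ⟨τ, ⟨hτ, hhalf, hinj⟩, hτq⟩ := ((distinct D hD).and hroots).exists
  have hτC : (τ : ℂ) ≠ 0 := by exact_mod_cast hτ.ne'
  -- the polynomial in the second coordinate
  set f1 : Fin (3 + r) → ℂ[X] := Fin.append ![Polynomial.C (τ : ℂ), Polynomial.X, 1]
    (fun j => Polynomial.C (c j)) with hf1
  set p : ℂ[X] := aeval f1 G with hp
  have hp' : ∀ x, p.eval x = eval (Fin.append ![(τ : ℂ), x, 1] c) G := by
    intro x
    have e1 : p.eval x = (Polynomial.aeval x) (aeval f1 G) := by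
      rw [Polynomial.coe_aeval_eq_eval]
    rw [e1, ← AlgHom.comp_apply, MvPolynomial.comp_aeval, ← MvPolynomial.coe_aeval_eq_eval]
    show (MvPolynomial.aeval _) G = (MvPolynomial.aeval _) G
    congr 2
    funext i
    refine Fin.addCases (fun j => ?_) (fun j => ?_) i
    · simp only [hf1, Fin.append_left]
      fin_cases j <;> simp
    · simp only [hf1, Fin.append_right]
      simp
  have hp0 : p ≠ 0 := by
    intro h0
    apply hτq
    rw [hq', ← hp', h0, Polynomial.eval_zero]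
  have hdeg : p.natDegree ≤ δ * 1 := by
    refine MvPolynomial.aeval_natDegree_le G (hG.totalDegree hne).le f1 fun i => ?_
    refine Fin.addCases (fun j => ?_) (fun j => ?_) i
    · simp only [hf1, Fin.append_left]
      fin_cases j <;> simp
    · simp only [hf1, Fin.append_right]
      simp
  -- the roots
  set S : Finset (Σ _ : ℕ, ℂ) := D.sigma fun d => (nthRoots d (τ : ℂ)).toFinset with hS
  have hcard : S.card = ∑ d ∈ D, d := by
    rw [hS, Finset.card_sigma]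
    refine Finset.sum_congr rfl fun d hd => ?_
    have hd0 : d ≠ 0 := by
      have := hD d hd
      omega
    have hprim := Complex.isPrimitiveRoot_exp d hd0
    rw [Multiset.toFinset_card_of_nodup (hprim.nthRoots_nodup hτC), hprim.card_nthRoots,
      if_pos (IsAlgClosed.exists_pow_nat_eq (τ : ℂ) (by omega))]
  have hmem : ∀ x ∈ S, x.1 ∈ D ∧ x.2 ^ x.1 = τ := by
    intro x hx
    rw [hS, Finset.mem_sigma, Multiset.mem_toFinset] at hx
    refine ⟨hx.1, (mem_nthRoots ?_).1 hx.2⟩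
    have := hD _ hx.1
    omega
  have hsub : S.image (fun x : (Σ _ : ℕ, ℂ) => -(x.2 + 1) ^ x.1) ⊆ p.roots.toFinset := by
    intro z hz
    obtain ⟨x, hx, rfl⟩ := Finset.mem_image.1 hz
    obtain ⟨h1, h2⟩ := hmem x hx
    rw [Multiset.mem_toFinset, Polynomial.mem_roots hp0]
    show p.eval _ = 0
    rw [hp', ← h2]
    refine hvan x.1 h1 x.2 ?_ (hhalf x.1 h1 x.2 h2) c
    intro h0
    rw [h0, zero_pow (by have := hD _ h1; omega)] at h2
    exact hτC h2.symm
  have hinjS : Set.InjOn (fun x : (Σ _ : ℕ, ℂ) => -(x.2 + 1) ^ x.1) (S : Set (Σ _ : ℕ, ℂ)) := by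
    rintro ⟨d, t⟩ hx ⟨d', t'⟩ hx' heq
    obtain ⟨h1, h2⟩ := hmem _ hx
    obtain ⟨h1', h2'⟩ := hmem _ hx'
    have h3 : (1 + t) ^ d = (1 + t') ^ d' := by
      have := neg_injective heq
      simpa [add_comm] using this
    obtain ⟨h4, h5⟩ := hinj d h1 d' h1' t t' h2 h2' h3
    subst h4
    subst h5
    rfl
  calc ∑ d ∈ D, d = S.card := hcard.symm
    _ = (S.image (fun x : (Σ _ : ℕ, ℂ) => -(x.2 + 1) ^ x.1)).card :=
        (Finset.card_image_of_injOn hinjS).symm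
    _ ≤ p.roots.toFinset.card := Finset.card_le_card hsub
    _ ≤ Multiset.card p.roots := Multiset.toFinset_card_le _
    _ ≤ p.natDegree := Polynomial.card_roots' p
    _ ≤ δ := by linarith

end Pool.Agent.Q183.GS
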