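import Pool.Agent.Q183.GS.Arith

/-!
The polynomials `(t + 1) ^ d - t ^ d - 1` and their factors.
-/

set_option autoImplicit false

namespace Pool.Agent.Q183.GS

open Polynomial

/-- the gain of the degree `d` -/
def cc (d : ℕ) : ℕ := if d % 6 = 1 then 4 else if d % 2 = 1 then 2 else 1

/-- a factor `M` of `(t + 1) ^ d - t ^ d - 1` -/
structure Fam (d : ℕ) where
  M : ℤ[X]
  B : ℤ → ℤ
  a : ℕ
  b : ℕ
  dvd : ∀ t : ℤ, M.eval t ∣ (t + 1) ^ d - t ^ d - 1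
  pos : ∀ t : ℤ, 1 ≤ t → t ^ a ≤ M.eval t
  Bpos : ∀ t : ℤ, 1 ≤ t → 0 < B t
  Ble : ∀ t : ℤ, 1 ≤ t → B t ≤ 6 * t ^ b
  Mdvd : ∀ t : ℤ, M.eval t ∣ (t * B t) ^ 2
  tdvd : ∀ t : ℤ, t + 1 ∣ B t
  hab : a + 1 = b + cc d
  had : a + 1 ≤ d
  root : ∀ t : ℂ, t ≠ 0 → ‖t‖ < 1 / 2 → aeval t M ≠ 0

theorem t_dvd (d : ℕ) (hd : 1 ≤ d) (t : ℤ) : t ∣ (t + 1) ^ d - t ^ d - 1 := by
  have h1 : t ∣ (t + 1) ^ d - 1 := by
    have := sub_dvd_pow_sub_pow (t + 1) 1 d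
    rw [one_pow] at this
    simpa using this
  have h2 : t ∣ t ^ d := dvd_pow_self t (by omega)
  have h3 : (t + 1) ^ d - t ^ d - 1 = ((t + 1) ^ d - 1) - t ^ d := by ring
  rw [h3]
  exact dvd_sub h1 h2

theorem t1_dvd (d : ℕ) (hd : Odd d) (t : ℤ) : t + 1 ∣ (t + 1) ^ d - t ^ d - 1 := by
  have h1 : t + 1 ∣ t ^ d + 1 := by
    have := Odd.add_dvd_pow_add_pow t 1 hd
    rwa [one_pow] at this
  have h2 : t + 1 ∣ (t + 1) ^ d := dvd_pow_self _ hd.pos.ne'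
  have h3 : (t + 1) ^ d - t ^ d - 1 = (t + 1) ^ d - (t ^ d + 1) := by ring
  rw [h3]
  exact dvd_sub h2 h1

theorem pow6 (t : ℤ) (j : ℕ) : ∃ A A' : ℤ,
    (t + 1) ^ (6 * j) = 1 - 2 * j * (t ^ 2 + t + 1) * (t + 2) + (t ^ 2 + t + 1) ^ 2 * A ∧
    t ^ (6 * j) = 1 + 2 * j * (t ^ 2 + t + 1) * (t - 1) + (t ^ 2 + t + 1) ^ 2 * A' := by
  induction j with
  | zero => exact ⟨0, 0, by simp, by simp⟩
  | succ j ih =>
    obtain ⟨A, A', h1, h2⟩ := ih
    have e1 : (t + 1) ^ 6 = 1 - 2 * (t ^ 2 + t + 1) * (t + 2) + (t ^ 2 + t + 1) ^ 2 * (t + 2) ^ 2 := by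
      ring
    have e2 : t ^ 6 = 1 + 2 * (t ^ 2 + t + 1) * (t - 1) + (t ^ 2 + t + 1) ^ 2 * (t - 1) ^ 2 := by
      ring
    refine ⟨(t + 2) ^ 2 + 4 * j * (t + 2) ^ 2 - 2 * j * (t ^ 2 + t + 1) * (t + 2) ^ 3 +
      A * (t + 1) ^ 6, (t - 1) ^ 2 + 4 * j * (t - 1) ^ 2 + 2 * j * (t ^ 2 + t + 1) * (t - 1) ^ 3 +
      A' * t ^ 6, ?_, ?_⟩
    · rw [mul_add, mul_one, pow_add, h1, e1]
      push_cast
      ring
    · rw [mul_add, mul_one, pow_add, h2, e2]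
      push_cast
      ring

theorem q_dvd (d : ℕ) (hd : d % 6 = 1) (t : ℤ) :
    (t ^ 2 + t + 1) ^ 2 ∣ (t + 1) ^ d - t ^ d - 1 := by
  obtain ⟨j, rfl⟩ : ∃ j, d = 6 * j + 1 := ⟨d / 6, by omega⟩
  obtain ⟨A, A', h1, h2⟩ := pow6 t j
  refine ⟨A * (t + 1) - A' * t - 4 * j, ?_⟩
  rw [pow_succ, pow_succ, h1, h2]
  ring

theorem exists_fam (d : ℕ) (hd : 2 ≤ d) : Nonempty (Fam d) := by
  have hroot0 : ∀ t : ℂ, t ≠ 0 → ‖t‖ < 1 / 2 → t ≠ 0 ∧ t + 1 ≠ 0 ∧ t ^ 2 + t + 1 ≠ 0 := by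
    intro t ht h
    refine ⟨ht, ?_, ?_⟩
    · intro h0
      have h1 : t = -1 := by linear_combination h0
      rw [h1, norm_neg, norm_one] at h
      norm_num at h
    · intro h0
      have h1 : t ^ 2 + t = -1 := by linear_combination h0
      have h2 : ‖t ^ 2 + t‖ = 1 := by rw [h1, norm_neg, norm_one]
      have h3 : ‖t ^ 2 + t‖ ≤ ‖t‖ ^ 2 + ‖t‖ := by
        refine (norm_add_le _ _).trans ?_
        rw [norm_pow]
      have h4 := norm_nonneg t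
      nlinarith
  have hcop : ∀ t : ℤ, IsCoprime t (t + 1) := fun t => ⟨-1, 1, by ring⟩
  by_cases h6 : d % 6 = 1
  · have hodd : Odd d := Nat.odd_iff.2 (by omega)
    have hq1 : ∀ t : ℤ, IsCoprime (t * (t + 1)) ((t ^ 2 + t + 1) ^ 2) := fun t =>
      IsCoprime.pow_right ⟨-1, 1, by ring⟩
    refine ⟨⟨X * (X + 1) * (X ^ 2 + X + 1) ^ 2, fun t => (t + 1) * (t ^ 2 + t + 1), 6, 3, ?_, ?_, ?_,
      ?_, ?_, ?_, ?_, ?_, ?_⟩⟩
    · intro t
      have he : (X * (X + 1) * (X ^ 2 + X + 1) ^ 2 : ℤ[X]).eval t =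
          t * (t + 1) * (t ^ 2 + t + 1) ^ 2 := by simp
      rw [he]
      exact (hq1 t).mul_dvd ((hcop t).mul_dvd (t_dvd d (by omega) t) (t1_dvd d hodd t))
        (q_dvd d h6 t)
    · intro t ht
      have he : (X * (X + 1) * (X ^ 2 + X + 1) ^ 2 : ℤ[X]).eval t =
          t * (t + 1) * (t ^ 2 + t + 1) ^ 2 := by simp
      rw [he]
      calc t ^ 6 = (t * t) * (t ^ 2) ^ 2 := by ring
        _ ≤ (t * (t + 1)) * (t ^ 2 + t + 1) ^ 2 := by gcongr <;> linarith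
    · intro t ht
      positivity
    · intro t ht
      calc (t + 1) * (t ^ 2 + t + 1) ≤ (t + t) * (t ^ 2 + t ^ 2 + t ^ 2) := by
            have h1 : t ≤ t ^ 2 := by nlinarith
            gcongr
            linarith
        _ = 6 * t ^ 3 := by ring
    · intro t
      have he : (X * (X + 1) * (X ^ 2 + X + 1) ^ 2 : ℤ[X]).eval t =
          t * (t + 1) * (t ^ 2 + t + 1) ^ 2 := by simp
      rw [he]
      exact ⟨t * (t + 1), by ring⟩
    · intro t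
      exact dvd_mul_right _ _
    · unfold cc
      rw [if_pos h6]
    · omega
    · intro t ht h
      obtain ⟨h1, h2, h3⟩ := hroot0 t ht h
      have he : aeval t (X * (X + 1) * (X ^ 2 + X + 1) ^ 2 : ℤ[X]) =
          t * (t + 1) * (t ^ 2 + t + 1) ^ 2 := by simp
      rw [he]
      exact mul_ne_zero (mul_ne_zero h1 h2) (pow_ne_zero _ h3)
  by_cases h2 : d % 2 = 1
  · have hodd : Odd d := Nat.odd_iff.2 h2
    refine ⟨⟨X * (X + 1), fun t => t + 1, 2, 1, ?_, ?_, ?_, ?_, ?_, ?_, ?_, ?_, ?_⟩⟩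
    · intro t
      have he : (X * (X + 1) : ℤ[X]).eval t = t * (t + 1) := by simp
      rw [he]
      exact (hcop t).mul_dvd (t_dvd d (by omega) t) (t1_dvd d hodd t)
    · intro t ht
      have he : (X * (X + 1) : ℤ[X]).eval t = t * (t + 1) := by simp
      rw [he]
      nlinarith
    · intro t ht
      linarith
    · intro t ht
      rw [pow_one]
      linarith
    · intro t
      have he : (X * (X + 1) : ℤ[X]).eval t = t * (t + 1) := by simp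
      rw [he]
      exact ⟨t * (t + 1), by ring⟩
    · intro t
      exact dvd_refl _
    · unfold cc
      rw [if_neg h6, if_pos h2]
    · omega
    · intro t ht h
      obtain ⟨h1, h2, h3⟩ := hroot0 t ht h
      have he : aeval t (X * (X + 1) : ℤ[X]) = t * (t + 1) := by simp
      rw [he]
      exact mul_ne_zero h1 h2
  · refine ⟨⟨X, fun t => t + 1, 1, 1, ?_, ?_, ?_, ?_, ?_, ?_, ?_, ?_, ?_⟩⟩
    · intro t
      rw [eval_X]
      exact t_dvd d (by omega) t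
    · intro t ht
      rw [eval_X, pow_one]
    · intro t ht
      linarith
    · intro t ht
      rw [pow_one]
      linarith
    · intro t
      rw [eval_X]
      exact ⟨t * (t + 1) ^ 2, by ring⟩
    · intro t
      exact dvd_refl _
    · unfold cc
      rw [if_neg h6, if_neg h2]
    · omega
    · intro t ht h
      rw [aeval_X]
      exact ht

end Pool.Agent.Q183.GS
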