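import Pool.Agent.Q183.GS.Main

/-!
The exceptional set of the abcd inequality depends on `ε`; generic sequences.
-/

set_option autoImplicit false

namespace Pool.Agent.Q183.GS

open NumberField IsDedekindDomain MvPolynomial

variable {K : Type} [Field K] [NumberField K] {r : ℕ}

theorem cc_le {d : ℕ} (hd : 2 ≤ d) : 1 ≤ cc d ∧ cc d ≤ d := by
  obtain ⟨𝓕⟩ := exists_fam d hd
  have h1 := 𝓕.hab
  have h2 := 𝓕.had
  constructor
  · unfold cc
    split_ifs <;> norm_num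
  · omega

/-- **Part 1**: the exceptional set contains the cones. -/
theorem cone (F : MvPolynomial (Fin (3 + r + 1)) K) (ε C : ℝ) (hε : 0 < ε)
    (h : ∀ z : Fin (3 + r + 1) → K, ∑ i, z i = 0 → (∀ i, z i ≠ 0) → eval z F ≠ 0 →
      ht z < (1 + ε) * rad z + C) (d : ℕ) (hd : 2 ≤ d) (hdε : (1 + ε) * ((d : ℝ) - cc d) < d)
    (σ : K →+* ℂ) (t : ℂ) (c : Fin r → ℂ) : eval (pt d t c) (map σ F) = 0 := by
  obtain ⟨𝓕⟩ := exists_fam d hd
  refine vanish 𝓕 F σ (fun k hk m0 => ?_) t c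
  obtain ⟨C', hC'⟩ := fam_bound (K := K) hd 𝓕 k hk
  have hlog : 0 < Real.log 2 := Real.log_pos (by norm_num)
  set g : ℝ := d - (1 + ε) * ((d : ℝ) - cc d) with hg
  have hg0 : 0 < g := sub_pos.2 hdε
  obtain ⟨m1, hm1⟩ := exists_nat_gt (((1 + ε) * C' + C) / (g * Real.log 2))
  refine ⟨max (max m0 1) m1, (le_max_left _ _).trans (le_max_left _ _), ?_⟩
  set m := max (max m0 1) m1 with hm
  have hm1' : 1 ≤ m := (le_max_right m0 1).trans (le_max_left _ _)
  have hm2 : m1 ≤ m := le_max_right _ _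
  obtain ⟨h1, h2, h3⟩ := hC' m hm1'
  by_contra hne
  have h4 := h (fun i => ((pt d ((2 : ℤ) ^ m) (fun i => -(k i : ℤ) * 𝓕.M.eval (2 ^ m)) i : ℤ) : K))
    (by
      rw [← Int.cast_sum, pt_sum, Int.cast_zero])
    (fun i => Int.cast_ne_zero.2 (h1 i)) hne
  have h5 : (1 + ε) * rad (fun i => ((pt d ((2 : ℤ) ^ m)
      (fun i => -(k i : ℤ) * 𝓕.M.eval (2 ^ m)) i : ℤ) : K)) ≤
      (1 + ε) * (((d : ℝ) - cc d) * (m * Real.log 2) + C') :=
    mul_le_mul_of_nonneg_left h3 (by linarith)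
  have h6 : g * (m * Real.log 2) < (1 + ε) * C' + C := by
    have : g * (m * Real.log 2) = d * (m * Real.log 2) -
        (1 + ε) * ((d : ℝ) - cc d) * (m * Real.log 2) := by
      rw [hg]
      ring
    rw [this]
    nlinarith
  rw [div_lt_iff₀ (by positivity)] at hm1
  have h7 : (m1 : ℝ) ≤ m := by exact_mod_cast hm2
  have h8 : (m1 : ℝ) * (g * Real.log 2) ≤ m * (g * Real.log 2) :=
    mul_le_mul_of_nonneg_right h7 (by positivity)
  nlinarith

theorem red_map_ne {F : MvPolynomial (Fin (3 + r + 1)) K} (hne : red F ≠ 0) (σ : K →+* ℂ) :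
    red (map σ F) ≠ 0 := by
  obtain ⟨z, hz1, hz2⟩ := of_red_ne hne
  refine red_ne ⟨fun i => σ (z i), ?_, ?_⟩
  · rw [← map_sum, hz1, map_zero]
  · rw [eval_map]
    have h1 := MvPolynomial.eval₂_comp σ z F
    have h2 : (σ ∘ z) = fun i => σ (z i) := rfl
    rw [h2] at h1
    rw [← h1]
    exact (map_ne_zero σ).2 hz2

/-- the degree of a hypersurface which contains several cones -/
theorem degs {F : MvPolynomial (Fin (3 + r + 1)) K} {δ : ℕ} (hF : F.IsHomogeneous δ)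
    (hne : red F ≠ 0) (σ : K →+* ℂ) (D : Finset ℕ) (hD : ∀ d ∈ D, 2 ≤ d)
    (hv : ∀ d ∈ D, ∀ (t : ℂ) (c : Fin r → ℂ), eval (pt d t c) (map σ F) = 0) :
    ∑ d ∈ D, d ≤ δ := by
  refine deg_bound (red (map σ F)) δ (red_homog (hF.map σ)) (red_map_ne hne σ) D hD
    fun d hd t _ _ c => ?_
  rw [eval_red, ← pt_eq_snoc]
  exact hv d hd t c

/-- the sum of the odd numbers -/
theorem sum_odd (k : ℕ) : ∑ d ∈ (Finset.range k).image (fun j => 2 * j + 3), d = k * (k + 2) := by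
  rw [Finset.sum_image (fun a _ b _ h => by omega)]
  induction k with
  | zero => rfl
  | succ k ih =>
    rw [Finset.sum_range_succ, ih]
    ring

theorem cc_odd {d : ℕ} (hd : d % 2 = 1) : 2 ≤ cc d := by
  unfold cc
  split_ifs <;> norm_num

/-- the quadratic lower bound -/
theorem quad {δ : ℕ} {ε : ℝ} (hε : 0 < ε) (hε1 : ε ≤ 1)
    (h : ∀ D : Finset ℕ, (∀ d ∈ D, 2 ≤ d ∧ (1 + ε) * ((d : ℝ) - cc d) < d) → ∑ d ∈ D, d ≤ δ) :
    1 / ε ^ 2 ≤ (δ : ℝ) := by
  have hinv : 1 ≤ 1 / ε := by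
    rw [le_div_iff₀ hε]
    linarith
  set k : ℕ := ⌈1 / ε + 1 / 2⌉₊ - 1 with hk
  have h1 : (k : ℝ) < 1 / ε + 1 / 2 := by
    have h3 : 0 < ⌈1 / ε + 1 / 2⌉₊ := Nat.ceil_pos.2 (by positivity)
    have h2 : k < ⌈1 / ε + 1 / 2⌉₊ := by omega
    exact Nat.lt_ceil.1 h2
  have h2 : 1 / ε - 1 / 2 ≤ (k : ℝ) := by
    have h3 := Nat.le_ceil (1 / ε + 1 / 2)
    have h4 : (⌈1 / ε + 1 / 2⌉₊ : ℝ) ≤ k + 1 := by
      have : ⌈1 / ε + 1 / 2⌉₊ ≤ k + 1 := by omega
      exact_mod_cast this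
    linarith
  have h3 := h ((Finset.range k).image (fun j => 2 * j + 3)) (by
    intro d hd
    obtain ⟨j, hj, rfl⟩ := Finset.mem_image.1 hd
    have hjk := Finset.mem_range.1 hj
    refine ⟨by omega, ?_⟩
    have h4 : 2 ≤ cc (2 * j + 3) := cc_odd (by omega)
    have h5 : (2 : ℝ) ≤ cc (2 * j + 3) := by exact_mod_cast h4
    have h6 : (j : ℝ) + 1 ≤ k := by exact_mod_cast hjk
    have h7 : ε * ((j : ℝ) + 1) < 1 + ε / 2 := by
      have h8 : ε * ((j : ℝ) + 1) ≤ ε * k := mul_le_mul_of_nonneg_left h6 hε.le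
      have h9 : ε * (k : ℝ) < ε * (1 / ε + 1 / 2) := mul_lt_mul_of_pos_left h1 hε
      have h10 : ε * (1 / ε + 1 / 2) = 1 + ε / 2 := by
        field_simp
      linarith
    push_cast
    have h11 : (1 + ε) * ((2 * (j : ℝ) + 3) - cc (2 * j + 3)) ≤
        (1 + ε) * ((2 * (j : ℝ) + 3) - 2) :=
      mul_le_mul_of_nonneg_left (by linarith) (by linarith)
    nlinarith)
  rw [sum_odd] at h3
  have h4 : ((k * (k + 2) : ℕ) : ℝ) ≤ δ := by exact_mod_cast h3
  push_cast at h4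
  have h5 : 1 / ε ^ 2 = (1 / ε) ^ 2 := by
    rw [div_pow, one_pow]
  rw [h5]
  nlinarith

/-- the points of the cone with coordinates in `K` -/
theorem coneK {F : MvPolynomial (Fin (3 + r + 1)) K} {δ : ℕ} (hF : F.IsHomogeneous δ)
    (σ : K →+* ℂ) (d : ℕ) (hv : ∀ (t : ℂ) (c : Fin r → ℂ), eval (pt d t c) (map σ F) = 0)
    (z : Fin (3 + r + 1) → K) (hz : ∑ i, z i = 0) (t a : K) (ha : a ≠ 0)
    (h0 : z (Fin.castSucc (Fin.castAdd r 0)) = a * t ^ d)
    (h1 : z (Fin.castSucc (Fin.castAdd r 1)) = -a * (t + 1) ^ d)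
    (h2 : z (Fin.castSucc (Fin.castAdd r 2)) = a) : eval z F = 0 := by
  set c : Fin r → K := fun i => a⁻¹ * z (Fin.castSucc (Fin.natAdd 3 i)) with hc
  have hzp : z = fun i => a * pt d t c i := by
    have e1 := snoc_of_sum z hz
    have e2 : (fun i => z (Fin.castSucc i)) =
        fun i => a * (Fin.append ![t ^ d, -(t + 1) ^ d, 1] c : Fin (3 + r) → K) i := by
      funext i
      refine Fin.addCases (fun j => ?_) (fun j => ?_) i
      · rw [Fin.append_left]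
        fin_cases j
        · exact h0
        · refine h1.trans ?_
          show -a * (t + 1) ^ d = a * (-(t + 1) ^ d)
          ring
        · refine h2.trans ?_
          show a = a * 1
          ring
      · rw [Fin.append_right, hc]
        show _ = a * (a⁻¹ * _)
        rw [mul_inv_cancel_left₀ ha]
    rw [e1, e2, ← Finset.mul_sum, pt_eq_snoc]
    funext i
    refine Fin.lastCases ?_ (fun j => ?_) i
    · rw [Fin.snoc_last, Fin.snoc_last, mul_neg]
    · rw [Fin.snoc_castSucc, Fin.snoc_castSucc]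
  rw [hzp, eval_smul_of hF]
  have e4 : eval (pt d t c) F = 0 := by
    apply (map_eq_zero σ).1
    rw [MvPolynomial.eval₂_comp, ← eval_map]
    have e5 := pt_map σ d t c
    have e6 : (σ ∘ pt d t c) = fun i => σ (pt d t c i) := rfl
    rw [e6, e5]
    exact hv _ _
  rw [e4, mul_zero]

/-- the points off a hypersurface -/
theorem off (F : MvPolynomial (Fin (3 + r + 1)) K) (δ : ℕ) (hF : F.IsHomogeneous δ)
    (hne : red F ≠ 0) : ∃ (d : ℕ) (C : ℝ), 2 ≤ d ∧ 0 ≤ C ∧ ∀ A : ℝ, ∃ z : Fin (3 + r + 1) → K,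
      ∑ i, z i = 0 ∧ (∀ i, z i ≠ 0) ∧ eval z F ≠ 0 ∧ A ≤ ht z ∧
      rad z ≤ (1 - 1 / (d : ℝ)) * ht z + C := by
  have hd : 2 ≤ δ + 2 := by omega
  obtain ⟨𝓕⟩ := exists_fam (δ + 2) hd
  obtain ⟨σ⟩ : Nonempty (K →+* ℂ) := inferInstance
  by_cases hcon : ∀ k : Fin r → ℕ, (∀ i, k i ≠ 0) → ∀ m0 : ℕ, ∃ m : ℕ, m0 ≤ m ∧
      eval (fun i => ((pt (δ + 2) ((2 : ℤ) ^ m) (fun i => -(k i : ℤ) * 𝓕.M.eval (2 ^ m)) i : ℤ) : K))
        F = 0
  · exfalso
    have hv := vanish 𝓕 F σ hcon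
    have hG : (red (map σ F)).IsHomogeneous δ := red_homog (hF.map σ)
    have hG0 : red (map σ F) ≠ 0 := by
      obtain ⟨z, hz1, hz2⟩ := of_red_ne hne
      refine red_ne ⟨fun i => σ (z i), ?_, ?_⟩
      · rw [← map_sum, hz1, map_zero]
      · rw [eval_map]
        have h1 := MvPolynomial.eval₂_comp σ z F
        have h2 : (σ ∘ z) = fun i => σ (z i) := rfl
        rw [h2] at h1
        rw [← h1]
        exact (map_ne_zero σ).2 hz2
    have h1 := deg_bound (red (map σ F)) δ hG hG0 {δ + 2} (fun d hd' => by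
      rw [Finset.mem_singleton] at hd'
      omega) (fun d hd' t _ _ c => by
        rw [Finset.mem_singleton] at hd'
        subst hd'
        rw [eval_red, ← pt_eq_snoc]
        exact hv t c)
    rw [Finset.sum_singleton] at h1
    omega
  · push Not at hcon
    obtain ⟨k, hk, m0, hm0⟩ := hcon
    obtain ⟨C, hC⟩ := fam_bound (K := K) hd 𝓕 k hk
    refine ⟨δ + 2, max C 0, hd, le_max_right _ _, fun A => ?_⟩
    have hlog : 0 < Real.log 2 := Real.log_pos (by norm_num)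
    obtain ⟨m1, hm1⟩ := exists_nat_gt (A / Real.log 2)
    set m := max (max m0 1) m1 with hm
    have hma : m0 ≤ m := (le_max_left _ _).trans (le_max_left _ _)
    have hmb : 1 ≤ m := (le_max_right m0 1).trans (le_max_left _ _)
    have hmc : m1 ≤ m := le_max_right _ _
    obtain ⟨h1, h2, h3⟩ := hC m hmb
    refine ⟨_, ?_, fun i => Int.cast_ne_zero.2 (h1 i), hm0 m hma, ?_, ?_⟩
    · rw [← Int.cast_sum, pt_sum, Int.cast_zero]
    · refine le_trans ?_ h2
      rw [div_lt_iff₀ hlog] at hm1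
      have h4 : (m1 : ℝ) * Real.log 2 ≤ m * Real.log 2 :=
        mul_le_mul_of_nonneg_right (by exact_mod_cast hmc) hlog.le
      have h5 : (1 : ℝ) ≤ ((δ + 2 : ℕ) : ℝ) := by exact_mod_cast (by omega : 1 ≤ δ + 2)
      have h6 : (m : ℝ) * Real.log 2 ≤ ((δ + 2 : ℕ) : ℝ) * (m * Real.log 2) :=
        le_mul_of_one_le_left (by positivity) h5
      linarith
    · refine h3.trans (add_le_add ?_ (le_max_left _ _))
      obtain ⟨h4, h5⟩ := cc_le hd
      have h6 : (0 : ℝ) < ((δ + 2 : ℕ) : ℝ) := by positivity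
      have h7 : ((δ + 2 : ℕ) : ℝ) - cc (δ + 2) ≤ (1 - 1 / ((δ + 2 : ℕ) : ℝ)) * ((δ + 2 : ℕ) : ℝ) := by
        have h8 : (1 - 1 / ((δ + 2 : ℕ) : ℝ)) * ((δ + 2 : ℕ) : ℝ) = ((δ + 2 : ℕ) : ℝ) - 1 := by
          field_simp
        have h9 : (1 : ℝ) ≤ cc (δ + 2) := by exact_mod_cast h4
        rw [h8]
        linarith
      have h10 : 0 ≤ 1 - 1 / ((δ + 2 : ℕ) : ℝ) := by
        rw [sub_nonneg, div_le_one h6]
        exact_mod_cast (by omega : 1 ≤ δ + 2)
      calc (((δ + 2 : ℕ) : ℝ) - cc (δ + 2)) * (m * Real.log 2)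
          ≤ ((1 - 1 / ((δ + 2 : ℕ) : ℝ)) * ((δ + 2 : ℕ) : ℝ)) * (m * Real.log 2) :=
            mul_le_mul_of_nonneg_right h7 (by positivity)
        _ = (1 - 1 / ((δ + 2 : ℕ) : ℝ)) * (((δ + 2 : ℕ) : ℝ) * (m * Real.log 2)) := by ring
        _ ≤ _ := mul_le_mul_of_nonneg_left h2 h10

theorem red_mul {R : Type} [CommRing R] {n : ℕ} (F G : MvPolynomial (Fin (n + 1)) R) :
    red (F * G) = red F * red G := by
  unfold red
  rw [map_mul]

/-- **Part 2**: generic sequences. -/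
theorem generic (r : ℕ) (ψ : ℝ → ℝ) (hψ : Filter.Tendsto ψ Filter.atTop Filter.atTop) :
    ∃ P : ℕ → Fin (3 + r + 1) → K,
      (∀ m, ∑ i, P m i = 0 ∧ (∀ i, P m i ≠ 0) ∧ (m : ℝ) ≤ ht (P m) ∧
        rad (P m) + ht (P m) / ψ (ht (P m)) ≤ ht (P m)) ∧
      ∀ (F : MvPolynomial (Fin (3 + r + 1)) K) (δ : ℕ), F.IsHomogeneous δ → red F ≠ 0 →
        {m | eval (P m) F = 0}.Finite := by
  classical
  have hKc : Countable K := by
    let b := Module.finBasis ℚ K
    exact b.equivFun.toEquiv.countable_iff.2 inferInstance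
  have hMc : Countable (MvPolynomial (Fin (3 + r + 1)) K) := by
    rw [← Cardinal.mk_le_aleph0_iff]
    refine MvPolynomial.cardinalMk_le_max.trans (max_le (max_le ?_ ?_) (le_refl _))
    · exact Cardinal.mk_le_aleph0_iff.2 hKc
    · exact Cardinal.mk_le_aleph0_iff.2 inferInstance
  let S : Set (MvPolynomial (Fin (3 + r + 1)) K) := {F | (∃ δ, F.IsHomogeneous δ) ∧ red F ≠ 0}
  have hS1 : (1 : MvPolynomial (Fin (3 + r + 1)) K) ∈ S := by
    refine ⟨⟨0, isHomogeneous_one _ _⟩, ?_⟩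
    unfold red
    rw [map_one]
    exact one_ne_zero
  have hSn : S.Nonempty := ⟨1, hS1⟩
  obtain ⟨f, hf⟩ := (Set.to_countable S).exists_eq_range hSn
  have hfS : ∀ i, f i ∈ S := fun i => by
    rw [hf]
    exact Set.mem_range_self i
  have hprod : ∀ m : ℕ, ∏ i ∈ Finset.range (m + 1), f i ∈ S := by
    intro m
    induction m with
    | zero => simpa using hfS 0
    | succ m ih =>
      rw [Finset.prod_range_succ]
      obtain ⟨⟨δ, hδ⟩, h1⟩ := ih
      obtain ⟨⟨δ', hδ'⟩, h2⟩ := hfS (m + 1)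
      refine ⟨⟨δ + δ', hδ.mul hδ'⟩, ?_⟩
      rw [red_mul]
      exact mul_ne_zero h1 h2
  have hpick : ∀ m : ℕ, ∃ z : Fin (3 + r + 1) → K, ∑ i, z i = 0 ∧ (∀ i, z i ≠ 0) ∧
      eval z (∏ i ∈ Finset.range (m + 1), f i) ≠ 0 ∧ (m : ℝ) ≤ ht z ∧
      rad z + ht z / ψ (ht z) ≤ ht z := by
    intro m
    obtain ⟨⟨δ, hδ⟩, hred⟩ := hprod m
    obtain ⟨d, C, hd, hC, h⟩ := off _ δ hδ hred
    obtain ⟨X0, hX0⟩ := Filter.eventually_atTop.1 (hψ.eventually_ge_atTop (2 * d))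
    have hd0 : (0 : ℝ) < d := by exact_mod_cast (by omega : 0 < d)
    obtain ⟨z, h1, h2, h3, h4, h5⟩ := h (max (max m X0) (max (2 * d * C) 1))
    have a1 : (m : ℝ) ≤ ht z := ((le_max_left _ _).trans (le_max_left _ _)).trans h4
    have a2 : X0 ≤ ht z := ((le_max_right _ _).trans (le_max_left _ _)).trans h4
    have a3 : 2 * d * C ≤ ht z := ((le_max_left _ _).trans (le_max_right _ _)).trans h4
    have a4 : 1 ≤ ht z := ((le_max_right _ _).trans (le_max_right _ _)).trans h4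
    refine ⟨z, h1, h2, h3, a1, ?_⟩
    have a5 := hX0 (ht z) a2
    have a6 : ht z / ψ (ht z) ≤ ht z / (2 * d) :=
      div_le_div_of_nonneg_left (by linarith) (by positivity) a5
    have a7 : C ≤ ht z / (2 * d) := by
      rw [le_div_iff₀ (by positivity)]
      linarith
    have a8 : (1 - 1 / (d : ℝ)) * ht z = ht z - ht z / (2 * d) - ht z / (2 * d) := by
      field_simp
      ring
    linarith
  choose P hP1 hP2 hP3 hP4 hP5 using hpick
  refine ⟨P, fun m => ⟨hP1 m, hP2 m, hP4 m, hP5 m⟩, fun F δ hF hred => ?_⟩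
  have hFS : F ∈ S := ⟨⟨δ, hF⟩, hred⟩
  rw [hf] at hFS
  obtain ⟨j, hj⟩ := hFS
  refine (Set.finite_lt_nat j).subset fun m hm => ?_
  by_contra hcon
  have hjm : j ≤ m := by
    exact not_lt.1 hcon
  apply hP3 m
  rw [map_prod]
  refine Finset.prod_eq_zero (Finset.mem_range.2 (by omega : j < m + 1)) ?_
  rw [hj]
  exact hm

end Pool.Agent.Q183.GS
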