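import Pool.Agent.Q183.GS.Pt
import Pool.Agent.Q183.GS.Deg

/-!
Closed sets which contain all the points of large height and small radical.
-/

set_option autoImplicit false

namespace Pool.Agent.Q183.GS

open NumberField IsDedekindDomain MvPolynomial

/-- the form in the first coordinates -/
noncomputable def red {R : Type} [CommRing R] {n : ℕ} (F : MvPolynomial (Fin (n + 1)) R) :
    MvPolynomial (Fin n) R :=
  aeval (Fin.snoc (α := fun _ => MvPolynomial (Fin n) R) (fun i => X i) (-∑ i, X i)) F

theorem eval_red {R : Type} [CommRing R] {n : ℕ} (F : MvPolynomial (Fin (n + 1)) R)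
    (y : Fin n → R) : eval y (red F) = eval (Fin.snoc (α := fun _ => R) y (-∑ i, y i)) F := by
  unfold red
  rw [← MvPolynomial.coe_aeval_eq_eval, ← MvPolynomial.coe_aeval_eq_eval]
  show (aeval y) ((aeval _) F) = (aeval _) F
  rw [← AlgHom.comp_apply, MvPolynomial.comp_aeval]
  congr 2
  funext i
  refine Fin.lastCases ?_ (fun j => ?_) i
  · simp
  · simp

theorem red_homog {R : Type} [CommRing R] {n : ℕ} {F : MvPolynomial (Fin (n + 1)) R} {δ : ℕ}
    (hF : F.IsHomogeneous δ) : (red F).IsHomogeneous δ := by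
  unfold red
  have := hF.aeval (Fin.snoc (α := fun _ => MvPolynomial (Fin n) R) (fun i => X i) (-∑ i, X i))
    (n := 1) (fun i => by
      refine Fin.lastCases ?_ (fun j => ?_) i
      · rw [Fin.snoc_last]
        exact (IsHomogeneous.sum _ _ _ fun i _ => isHomogeneous_X _ i).neg
      · rw [Fin.snoc_castSucc]
        exact isHomogeneous_X _ j)
  rwa [one_mul] at this

theorem snoc_of_sum {R : Type} [CommRing R] {n : ℕ} (z : Fin (n + 1) → R) (h : ∑ i, z i = 0) :
    z = Fin.snoc (α := fun _ => R) (fun i => z (Fin.castSucc i)) (-∑ i, z (Fin.castSucc i)) := by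
  funext i
  refine Fin.lastCases ?_ (fun j => ?_) i
  · rw [Fin.snoc_last]
    rw [Fin.sum_univ_castSucc] at h
    linear_combination h
  · rw [Fin.snoc_castSucc]

theorem red_ne {R : Type} [CommRing R] {n : ℕ} {F : MvPolynomial (Fin (n + 1)) R}
    (h : ∃ z : Fin (n + 1) → R, ∑ i, z i = 0 ∧ eval z F ≠ 0) : red F ≠ 0 := by
  obtain ⟨z, hz, hF⟩ := h
  intro h0
  apply hF
  rw [snoc_of_sum z hz, ← eval_red, h0, map_zero]

theorem of_red_ne {R : Type} [CommRing R] [IsDomain R] [Infinite R] {n : ℕ}
    {F : MvPolynomial (Fin (n + 1)) R} (h : red F ≠ 0) :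
    ∃ z : Fin (n + 1) → R, ∑ i, z i = 0 ∧ eval z F ≠ 0 := by
  by_contra hcon
  push Not at hcon
  apply h
  refine MvPolynomial.funext fun y => ?_
  rw [eval_red, map_zero]
  refine hcon _ ?_
  rw [Fin.sum_univ_castSucc]
  simp

theorem pt_eq_snoc {R : Type} [CommRing R] {r : ℕ} (d : ℕ) (t : R) (c : Fin r → R) :
    pt d t c = Fin.snoc (α := fun _ => R) (Fin.append ![t ^ d, -(t + 1) ^ d, 1] c)
      (-∑ i, (Fin.append ![t ^ d, -(t + 1) ^ d, 1] c : Fin (3 + r) → R) i) := by
  have h := snoc_of_sum (pt d t c) (pt_sum d t c)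
  have e : (fun i => pt d t c (Fin.castSucc i)) = Fin.append ![t ^ d, -(t + 1) ^ d, 1] c := by
    funext i
    unfold pt
    rw [Fin.snoc_castSucc]
  rw [e] at h
  exact h

section Vanish

variable {K : Type} [Field K] [NumberField K] {r : ℕ}

/-- a polynomial in one variable: the values of a form at points with polynomial coordinates -/
theorem eval_aeval_poly {σ : Type} (F : MvPolynomial σ ℂ) (f : σ → Polynomial ℂ) (t : ℂ) :
    Polynomial.eval t (aeval f F) = eval (fun i => (f i).eval t) F := by
  have e1 : Polynomial.eval t (aeval f F) = (Polynomial.aeval t) (aeval f F) := by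
    rw [Polynomial.coe_aeval_eq_eval]
  rw [e1, ← AlgHom.comp_apply, MvPolynomial.comp_aeval, ← MvPolynomial.coe_aeval_eq_eval]
  show (aeval _) F = (aeval _) F
  congr 2

theorem eval_aeval_mv {σ τ : Type} (F : MvPolynomial σ ℂ) (f : σ → MvPolynomial τ ℂ) (t : τ → ℂ) :
    eval t (aeval f F) = eval (fun i => eval t (f i)) F := by
  rw [← MvPolynomial.coe_aeval_eq_eval, ← MvPolynomial.coe_aeval_eq_eval]
  show (aeval t) ((aeval _) F) = (aeval _) F
  rw [← AlgHom.comp_apply, MvPolynomial.comp_aeval]
  rfl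

omit [NumberField K] in
/-- **Vanishing on the cone.** -/
theorem vanish {d : ℕ} (𝓕 : Fam d) (F : MvPolynomial (Fin (3 + r + 1)) K) (σ : K →+* ℂ)
    (h : ∀ k : Fin r → ℕ, (∀ i, k i ≠ 0) → ∀ m0 : ℕ, ∃ m : ℕ, m0 ≤ m ∧
      eval (fun i => ((pt d ((2 : ℤ) ^ m) (fun i => -(k i : ℤ) * 𝓕.M.eval (2 ^ m)) i : ℤ) : K)) F =
        0) (t : ℂ) (c : Fin r → ℂ) : eval (pt d t c) (map σ F) = 0 := by
  -- the points with complex coordinates
  have step1 : ∀ k : Fin r → ℕ, (∀ i, k i ≠ 0) → ∀ t : ℂ,
      eval (pt d t (fun i => -(k i : ℂ) * Polynomial.aeval t 𝓕.M)) (map σ F) = 0 := by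
    intro k hk t
    set M' : Polynomial ℂ := 𝓕.M.map (Int.castRingHom ℂ) with hM'
    set f : Fin (3 + r + 1) → Polynomial ℂ :=
      pt d Polynomial.X (fun i => -(Polynomial.C (k i : ℂ)) * M') with hf
    have hfe : ∀ x : ℂ, (fun i => (f i).eval x) =
        pt d x (fun i => -(k i : ℂ) * Polynomial.aeval x 𝓕.M) := by
      intro x
      have h1 := pt_map (Polynomial.evalRingHom x) d (Polynomial.X : Polynomial ℂ)
        (fun i => -(Polynomial.C (k i : ℂ)) * M')
      simp only [Polynomial.coe_evalRingHom, Polynomial.eval_X] at h1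
      rw [hf, h1]
      congr 1
      funext i
      rw [Polynomial.eval_mul, Polynomial.eval_neg, Polynomial.eval_C, hM',
        Polynomial.eval_map, Polynomial.aeval_def]
      rfl
    have hzero : aeval f (map σ F) = 0 := by
      refine Polynomial.eq_zero_of_infinite_isRoot _ ?_
      have hinf : {m : ℕ | eval (fun i => ((pt d ((2 : ℤ) ^ m)
          (fun i => -(k i : ℤ) * 𝓕.M.eval (2 ^ m)) i : ℤ) : K)) F = 0}.Infinite := by
        rw [Set.infinite_iff_exists_gt]
        intro a
        obtain ⟨m, hm, hm'⟩ := h k hk (a + 1)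
        exact ⟨m, hm', by omega⟩
      have hinj : Set.InjOn (fun m : ℕ => ((2 : ℂ) ^ m)) {m : ℕ | eval (fun i =>
          ((pt d ((2 : ℤ) ^ m) (fun i => -(k i : ℤ) * 𝓕.M.eval (2 ^ m)) i : ℤ) : K)) F = 0} := by
        intro a _ b _ hab
        have h1 : ((2 ^ a : ℕ) : ℂ) = ((2 ^ b : ℕ) : ℂ) := by
          push_cast
          exact hab
        exact Nat.pow_right_injective (le_refl 2) (by exact_mod_cast h1)
      refine (hinf.image hinj).mono ?_
      rintro _ ⟨m, hm, rfl⟩
      show Polynomial.eval _ _ = 0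
      rw [eval_aeval_poly, hfe, eval_map]
      have h1 := congrArg σ hm
      rw [MvPolynomial.eval₂_comp, map_zero] at h1
      rw [← h1]
      congr 1
      have h2 := pt_map ((σ.comp (Int.castRingHom K))) d ((2 : ℤ) ^ m)
        (fun i => -(k i : ℤ) * 𝓕.M.eval (2 ^ m))
      have h3 : (σ ∘ fun i => ((pt d ((2 : ℤ) ^ m)
          (fun i => -(k i : ℤ) * 𝓕.M.eval (2 ^ m)) i : ℤ) : K)) =
          fun i => (σ.comp (Int.castRingHom K)) (pt d ((2 : ℤ) ^ m)
            (fun i => -(k i : ℤ) * 𝓕.M.eval (2 ^ m)) i) := rfl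
      rw [h3, h2]
      have h4 : ∀ a : ℤ, (σ.comp (Int.castRingHom K)) a = (a : ℂ) := fun a => by simp
      simp only [h4]
      push_cast
      congr 1
      funext i
      congr 1
      have h6 := Polynomial.eval_intCast_map (Int.castRingHom ℂ) 𝓕.M ((2 : ℤ) ^ m)
      rw [Polynomial.eval_map] at h6
      push_cast at h6
      simpa [Polynomial.aeval_def] using h6
    have h5 := eval_aeval_poly (map σ F) f t
    rw [hzero, Polynomial.eval_zero, hfe] at h5
    exact h5.symm
  -- all the last coordinates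
  have step2 : ∀ t : ℂ, Polynomial.aeval t 𝓕.M ≠ 0 → ∀ c : Fin r → ℂ,
      eval (pt d t c) (map σ F) = 0 := by
    intro t ht c
    set u : ℂ := Polynomial.aeval t 𝓕.M with hu
    set f : Fin (3 + r + 1) → MvPolynomial (Fin r) ℂ :=
      pt d (C t) (fun i => X i * C u) with hf
    have hfe : ∀ x : Fin r → ℂ, (fun i => eval x (f i)) = pt d t (fun i => x i * u) := by
      intro x
      have h1 := pt_map (eval x) d (C t : MvPolynomial (Fin r) ℂ) (fun i => X i * C u)
      rw [hf, h1]
      simp
    have hzero : aeval f (map σ F) = 0 := by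
      refine MvPolynomial.funext_set (fun _ => {x : ℂ | ∃ k : ℕ, k ≠ 0 ∧ x = -(k : ℂ)})
        (fun _ => ?_) ?_
      · have h1 : Function.Injective (fun k : ℕ => -((k + 1 : ℕ) : ℂ)) := by
          intro a b hab
          have := neg_injective hab
          have h2 : a + 1 = b + 1 := by exact_mod_cast this
          omega
        refine (Set.infinite_range_of_injective h1).mono ?_
        rintro _ ⟨k, rfl⟩
        exact ⟨k + 1, by omega, rfl⟩
      · intro x hx
        rw [map_zero]
        choose k hk using fun i => hx i (Set.mem_univ i)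
        rw [eval_aeval_mv, hfe]
        have h2 := step1 k (fun i => (hk i).1) t
        have h3 : x = fun i => -(k i : ℂ) := funext fun i => (hk i).2
        rw [h3]
        exact h2
    have h5 := eval_aeval_mv (map σ F) f (fun i => c i / u)
    rw [hzero, map_zero, hfe] at h5
    have h6 : (fun i => c i / u * u) = c := by
      funext i
      rw [div_mul_cancel₀ _ ht]
    rw [h6] at h5
    exact h5.symm
  -- all t
  set f : Fin (3 + r + 1) → Polynomial ℂ :=
    pt d Polynomial.X (fun i => Polynomial.C (c i)) with hf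
  have hfe : ∀ x : ℂ, (fun i => (f i).eval x) = pt d x c := by
    intro x
    have h1 := pt_map (Polynomial.evalRingHom x) d (Polynomial.X : Polynomial ℂ)
      (fun i => Polynomial.C (c i))
    simp only [Polynomial.coe_evalRingHom, Polynomial.eval_X, Polynomial.eval_C] at h1
    exact h1
  have hzero : aeval f (map σ F) = 0 := by
    refine Polynomial.eq_zero_of_infinite_isRoot _ ?_
    have hinj : Function.Injective (fun k : ℕ => (((1 / ((k : ℝ) + 3)) : ℝ) : ℂ)) := by
      intro a b hab
      have h1 : (1 / ((a : ℝ) + 3)) = 1 / ((b : ℝ) + 3) := Complex.ofReal_injective hab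
      have h2 : (a : ℝ) + 3 = b + 3 := by
        have ha : ((a : ℝ) + 3) ≠ 0 := by positivity
        have hb : ((b : ℝ) + 3) ≠ 0 := by positivity
        field_simp at h1
        linarith
      have h3 : (a : ℝ) = b := by linarith
      exact_mod_cast h3
    refine (Set.infinite_range_of_injective hinj).mono ?_
    rintro _ ⟨k, rfl⟩
    show Polynomial.eval _ _ = 0
    rw [eval_aeval_poly, hfe]
    refine step2 _ (𝓕.root _ ?_ ?_) c
    · have : (1 / ((k : ℝ) + 3)) ≠ 0 := by positivity
      exact Complex.ofReal_ne_zero.2 this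
    · rw [Complex.norm_real, Real.norm_of_nonneg (by positivity)]
      rw [div_lt_div_iff₀ (by positivity) (by norm_num)]
      have : (0 : ℝ) ≤ k := Nat.cast_nonneg k
      linarith
  have h5 := eval_aeval_poly (map σ F) f t
  rw [hzero, Polynomial.eval_zero, hfe] at h5
  exact h5.symm

end Vanish

end Pool.Agent.Q183.GS
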