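import Pool.Agent.Q183.GS.Fam

/-!
The points on the cones over the curves `(t ^ d : -(t + 1) ^ d : 1 : …)`.
-/

set_option autoImplicit false

namespace Pool.Agent.Q183.GS

open NumberField IsDedekindDomain

/-- the point `(t ^ d : -(t + 1) ^ d : 1 : c : …)` with sum zero -/
def pt {R : Type} [CommRing R] {r : ℕ} (d : ℕ) (t : R) (c : Fin r → R) : Fin (3 + r + 1) → R :=
  Fin.snoc (α := fun _ => R) (Fin.append ![t ^ d, -(t + 1) ^ d, 1] c)
    ((t + 1) ^ d - t ^ d - 1 - ∑ i, c i)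

theorem pt_sum {R : Type} [CommRing R] {r : ℕ} (d : ℕ) (t : R) (c : Fin r → R) :
    ∑ i, pt d t c i = 0 := by
  unfold pt
  rw [Fin.sum_univ_castSucc]
  simp only [Fin.snoc_castSucc, Fin.snoc_last]
  rw [Fin.sum_univ_add]
  simp only [Fin.append_left, Fin.append_right, Fin.sum_univ_three]
  simp
  ring

theorem pt_cases {R : Type} [CommRing R] {r : ℕ} (d : ℕ) (t : R) (c : Fin r → R) (P : R → Prop)
    (h0 : P (t ^ d)) (h1 : P (-(t + 1) ^ d)) (h2 : P 1) (h3 : ∀ j, P (c j))
    (h4 : P ((t + 1) ^ d - t ^ d - 1 - ∑ i, c i)) (i : Fin (3 + r + 1)) : P (pt d t c i) := by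
  unfold pt
  refine Fin.lastCases ?_ (fun i => ?_) i
  · simpa only [Fin.snoc_last] using h4
  · simp only [Fin.snoc_castSucc]
    refine Fin.addCases (fun j => ?_) (fun j => ?_) i
    · rw [Fin.append_left]
      fin_cases j
      · exact h0
      · exact h1
      · exact h2
    · rw [Fin.append_right]
      exact h3 j

theorem pt_map {R S : Type} [CommRing R] [CommRing S] (f : R →+* S) {r : ℕ} (d : ℕ) (t : R)
    (c : Fin r → R) : (fun i => f (pt d t c i)) = pt d (f t) (fun i => f (c i)) := by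
  funext i
  refine Fin.lastCases ?_ (fun i => ?_) i
  · simp [pt]
  · simp only [pt, Fin.snoc_castSucc]
    refine Fin.addCases (fun j => ?_) (fun j => ?_) i
    · rw [Fin.append_left, Fin.append_left]
      fin_cases j <;> simp
    · rw [Fin.append_right, Fin.append_right]

theorem pt_zero {R : Type} [CommRing R] {r : ℕ} (d : ℕ) (t : R) (c : Fin r → R) :
    pt d t c (Fin.castSucc (Fin.castAdd r 0)) = t ^ d := by
  unfold pt
  rw [Fin.snoc_castSucc, Fin.append_left]
  rfl

theorem pt_two {R : Type} [CommRing R] {r : ℕ} (d : ℕ) (t : R) (c : Fin r → R) :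
    pt d t c (Fin.castSucc (Fin.castAdd r 2)) = 1 := by
  unfold pt
  rw [Fin.snoc_castSucc, Fin.append_left]
  rfl

theorem diff_le (d : ℕ) (t : ℤ) (ht : 1 ≤ t) : (t + 1) ^ (d + 1) - t ^ (d + 1) ≤
    (2 ^ (d + 1) - 1) * t ^ d := by
  induction d with
  | zero => norm_num
  | succ d ih =>
    have h1 : (t + 1) ^ (d + 2) - t ^ (d + 2) =
        (t + 1) * ((t + 1) ^ (d + 1) - t ^ (d + 1)) + t ^ (d + 1) := by ring
    have h2 : (0 : ℤ) ≤ (2 ^ (d + 1) - 1) * t ^ d :=
      mul_nonneg (by have : (1 : ℤ) ≤ 2 ^ (d + 1) := one_le_pow₀ (by norm_num)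
                     linarith) (by positivity)
    have h3 : (t + 1) * ((t + 1) ^ (d + 1) - t ^ (d + 1)) ≤
        (t + t) * ((2 ^ (d + 1) - 1) * t ^ d) := by
      refine (mul_le_mul_of_nonneg_left ih (by linarith)).trans ?_
      exact mul_le_mul_of_nonneg_right (by linarith) h2
    have h4 : (t + t) * ((2 ^ (d + 1) - 1) * t ^ d) + t ^ (d + 1) =
        (2 ^ (d + 2) - 1) * t ^ (d + 1) := by ring
    rw [h1]
    linarith

theorem diff_pos (d : ℕ) (hd : 2 ≤ d) (t : ℤ) (ht : 1 ≤ t) : 0 < (t + 1) ^ d - t ^ d - 1 := by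
  obtain ⟨e, rfl⟩ : ∃ e, d = e + 2 := ⟨d - 2, by omega⟩
  induction e with
  | zero =>
    have : (t + 1) ^ (0 + 2) - t ^ (0 + 2) - 1 = 2 * t := by ring
    rw [this]
    linarith
  | succ e ih =>
    have h1 := ih (by omega)
    have h2 : (t + 1) ^ (e + 1 + 2) - t ^ (e + 1 + 2) - 1 =
        (t + 1) * ((t + 1) ^ (e + 2) - t ^ (e + 2) - 1) + t ^ (e + 2) + t := by ring
    rw [h2]
    positivity

variable {K : Type} [Field K] [NumberField K] {r : ℕ}

/-- **The points of large height and small radical.** -/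
theorem fam_bound {d : ℕ} (hd : 2 ≤ d) (𝓕 : Fam d) (k : Fin r → ℕ) (hk : ∀ i, k i ≠ 0) :
    ∃ C : ℝ, ∀ m : ℕ, 1 ≤ m →
      (∀ i, pt d ((2 : ℤ) ^ m) (fun i => -(k i : ℤ) * 𝓕.M.eval (2 ^ m)) i ≠ 0) ∧
      d * (m * Real.log 2) ≤
        ht (fun i => ((pt d ((2 : ℤ) ^ m) (fun i => -(k i : ℤ) * 𝓕.M.eval (2 ^ m)) i : ℤ) : K)) ∧
      rad (fun i => ((pt d ((2 : ℤ) ^ m) (fun i => -(k i : ℤ) * 𝓕.M.eval (2 ^ m)) i : ℤ) : K)) ≤
        ((d : ℝ) - cc d) * (m * Real.log 2) + C := by
  set s : ℤ := ∑ i, (k i : ℤ) with hs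
  set w : ℤ := ∏ i, (k i : ℤ) with hw
  have hs0 : 0 ≤ s := Finset.sum_nonneg fun i _ => by positivity
  have hw0 : 0 < w := Finset.prod_pos fun i _ => by
    have := hk i
    positivity
  refine ⟨Real.log (2 * 6 * (2 ^ d + s) * w), fun m hm => ?_⟩
  set t : ℤ := 2 ^ m with ht
  have ht1 : 1 ≤ t := one_le_pow₀ (by norm_num)
  set M : ℤ := 𝓕.M.eval t with hM
  have hMpos : 0 < M := lt_of_lt_of_le (by positivity) (𝓕.pos t ht1)
  obtain ⟨q, hq⟩ := 𝓕.dvd t
  have hdiff := diff_pos d hd t ht1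
  have hqpos : 0 < q := by
    rw [hq] at hdiff
    exact pos_of_mul_pos_right hdiff hMpos.le
  have hsum : ∑ i, (-(k i : ℤ) * M) = -s * M := by
    rw [hs, ← Finset.sum_mul, Finset.sum_neg_distrib]
  have hlast : (t + 1) ^ d - t ^ d - 1 - ∑ i, (-(k i : ℤ) * M) = M * (q + s) := by
    rw [hsum, hq]
    ring
  have hne : ∀ i, pt d t (fun i => -(k i : ℤ) * M) i ≠ 0 := by
    refine pt_cases d t _ (fun x => x ≠ 0) (by positivity) ?_ one_ne_zero ?_ ?_
    · have : 0 < (t + 1) ^ d := by positivity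
      exact neg_ne_zero.2 this.ne'
    · intro j
      have h1 : (k j : ℤ) ≠ 0 := by exact_mod_cast hk j
      exact mul_ne_zero (neg_ne_zero.2 h1) hMpos.ne'
    · rw [hlast]
      have : 0 < q + s := by linarith
      exact (mul_pos hMpos this).ne'
  refine ⟨hne, ?_, ?_⟩
  · refine le_ht (pt d t (fun i => -(k i : ℤ) * M)) (Fin.castSucc (Fin.castAdd r 0))
      (Fin.castSucc (Fin.castAdd r 2)) (pt_two d t _) ?_ ?_
    · rw [pt_zero, ht]
      push_cast
      rw [abs_of_nonneg (by positivity), Real.log_pow, Real.log_pow]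
    · rw [pt_zero]
      positivity
  · set N : ℤ := 2 * 𝓕.B t * (q + s) * w with hN
    have hB := 𝓕.Bpos t ht1
    have hqs : 0 < q + s := by linarith
    have hNpos : 0 < N := by positivity
    have h1 : rad (fun i => ((pt d t (fun i => -(k i : ℤ) * M) i : ℤ) : K)) ≤
        Real.log (N.natAbs : ℕ) := by
      refine rad_le _ _ (Int.natAbs_ne_zero.2 hNpos.ne') fun v i hi => ?_
      have hNv : ((N.natAbs : ℕ) : 𝓞 K) = ((N : ℤ) : 𝓞 K) := by
        have h9 : ((N.natAbs : ℤ)) = N := Int.natAbs_of_nonneg hNpos.le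
        calc ((N.natAbs : ℕ) : 𝓞 K) = (((N.natAbs : ℕ) : ℤ) : 𝓞 K) := (Int.cast_natCast _).symm
          _ = ((N : ℤ) : 𝓞 K) := by rw [h9]
      rw [hNv]
      -- factors
      have fac : ∀ x : ℤ, x ∣ N → ((x : ℤ) : 𝓞 K) ∈ v.asIdeal → ((N : ℤ) : 𝓞 K) ∈ v.asIdeal := by
        rintro x ⟨y, hy⟩ hx
        rw [hy]
        push_cast
        exact Ideal.mul_mem_right _ _ hx
      have hprime := v.isPrime
      have h2N : (2 : ℤ) ∣ N := ⟨𝓕.B t * (q + s) * w, by rw [hN]; ring⟩
      have hBN : 𝓕.B t ∣ N := ⟨2 * (q + s) * w, by rw [hN]; ring⟩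
      have ht_ : ((t : ℤ) : 𝓞 K) ∈ v.asIdeal → ((N : ℤ) : 𝓞 K) ∈ v.asIdeal := by
        intro h
        refine fac 2 h2N ?_
        rw [ht] at h
        push_cast at h ⊢
        exact hprime.mem_of_pow_mem _ h
      have hM_ : ((M : ℤ) : 𝓞 K) ∈ v.asIdeal → ((N : ℤ) : 𝓞 K) ∈ v.asIdeal := by
        intro h
        obtain ⟨y, hy⟩ := 𝓕.Mdvd t
        have h5 : (((t * 𝓕.B t) ^ 2 : ℤ) : 𝓞 K) ∈ v.asIdeal := by
          rw [hy]
          push_cast
          exact Ideal.mul_mem_right _ _ h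
        push_cast at h5
        rcases hprime.mem_or_mem (hprime.mem_of_pow_mem _ h5) with h6 | h6
        · exact ht_ (by exact_mod_cast h6)
        · exact fac _ hBN h6
      revert hi
      refine pt_cases d t _ (fun x => ((x : ℤ) : 𝓞 K) ∈ v.asIdeal → ((N : ℤ) : 𝓞 K) ∈ v.asIdeal)
        ?_ ?_ ?_ ?_ ?_ i
      · intro h
        push_cast at h
        exact ht_ (hprime.mem_of_pow_mem _ h)
      · intro h
        push_cast at h
        have h5 := hprime.mem_of_pow_mem _ (neg_mem_iff.1 h)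
        refine fac _ ((𝓕.tdvd t).trans hBN) ?_
        push_cast
        exact h5
      · intro h
        exfalso
        apply hprime.ne_top
        rw [Ideal.eq_top_iff_one]
        simpa using h
      · intro j h
        push_cast at h
        rcases hprime.mem_or_mem h with h5 | h5
        · refine fac (k j : ℤ) ?_ ?_
          · rw [hN, hw]
            exact Dvd.dvd.mul_left (Finset.dvd_prod_of_mem (fun i => (k i : ℤ)) (Finset.mem_univ j)) _
          · push_cast
            exact neg_mem_iff.1 h5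
        · exact hM_ h5
      · rw [hlast]
        intro h
        push_cast at h
        rcases hprime.mem_or_mem h with h5 | h5
        · exact hM_ h5
        · refine fac (q + s) ⟨2 * 𝓕.B t * w, by rw [hN]; ring⟩ ?_
          push_cast
          exact h5
    refine h1.trans ?_
    -- the size of N
    have hq1 : q ≤ 2 ^ d * t ^ (d - 1 - 𝓕.a) := by
      have h2 : t ^ 𝓕.a * q ≤ t ^ 𝓕.a * (2 ^ d * t ^ (d - 1 - 𝓕.a)) := by
        have h3 : t ^ 𝓕.a * q ≤ M * q := mul_le_mul_of_nonneg_right (𝓕.pos t ht1) hqpos.le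
        have h4 : (t + 1) ^ d - t ^ d ≤ (2 ^ d - 1) * t ^ (d - 1) := by
          have := diff_le (d - 1) t ht1
          rwa [Nat.sub_add_cancel (by omega : 1 ≤ d)] at this
        have h5 : t ^ 𝓕.a * (2 ^ d * t ^ (d - 1 - 𝓕.a)) = 2 ^ d * t ^ (d - 1) := by
          have h6 : d - 1 = 𝓕.a + (d - 1 - 𝓕.a) := by
            have := 𝓕.had
            omega
          conv_rhs => rw [h6, pow_add]
          ring
        rw [h5]
        have h7 : (0 : ℤ) < t ^ (d - 1) := by positivity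
        rw [← hq] at h3
        linarith
      exact le_of_mul_le_mul_left h2 (by positivity)
    have hNle : (N : ℝ) ≤ (2 * 6 * (2 ^ d + s) * w) * (t : ℝ) ^ (d - cc d) := by
      have h2 : N ≤ 2 * (6 * t ^ 𝓕.b) * ((2 ^ d + s) * t ^ (d - 1 - 𝓕.a)) * w := by
        rw [hN]
        have h3 : q + s ≤ (2 ^ d + s) * t ^ (d - 1 - 𝓕.a) := by
          have h4 : s ≤ s * t ^ (d - 1 - 𝓕.a) := le_mul_of_one_le_right hs0 (one_le_pow₀ ht1)
          linarith
        have h5 := 𝓕.Ble t ht1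
        gcongr
      have h3 : 2 * (6 * t ^ 𝓕.b) * ((2 ^ d + s) * t ^ (d - 1 - 𝓕.a)) * w =
          (2 * 6 * (2 ^ d + s) * w) * t ^ (d - cc d) := by
        have h4 : d - cc d = 𝓕.b + (d - 1 - 𝓕.a) := by
          have := 𝓕.had
          have := 𝓕.hab
          omega
        rw [h4, pow_add]
        ring
      rw [h3] at h2
      exact_mod_cast h2
    have hcast : ((N.natAbs : ℕ) : ℝ) = (N : ℝ) := by
      rw [Nat.cast_natAbs, abs_of_pos hNpos]
    have hc : cc d ≤ d := by
      have := 𝓕.had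
      have := 𝓕.hab
      omega
    rw [hcast]
    have hNR : (0 : ℝ) < N := by exact_mod_cast hNpos
    have hwR : (0 : ℝ) < w := by exact_mod_cast hw0
    have hsR : (0 : ℝ) ≤ s := by exact_mod_cast hs0
    have htR : (0 : ℝ) < (t : ℝ) ^ (d - cc d) := by
      have : (0 : ℝ) < t := by exact_mod_cast (by linarith : (0 : ℤ) < t)
      positivity
    refine (Real.log_le_log hNR hNle).trans ?_
    rw [Real.log_mul (by positivity) htR.ne', Real.log_pow, Nat.cast_sub hc]
    have h9 : Real.log (t : ℝ) = m * Real.log 2 := by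
      rw [ht]
      push_cast
      rw [Real.log_pow]
    rw [h9]
    linarith

end Pool.Agent.Q183.GS
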